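import Pool.Agent.H95.DR.Targets
import Pool.Agent.H95.CF.Targets

/-!
# CNT: every line has the same number of unit multiples (real quadratic fields)
-/

set_option autoImplicit false

open MeasureTheory Set Filter NumberField
open scoped Real nonZeroDivisors Matrix MatrixGroups

namespace Pool.Agent.H47.DF

open Pool.Agent.H31.CN Pool.Agent.H89.FM Pool.Agent.H61.FM Pool.Agent.H89.FC Pool.Agent.H95.FC
open Pool.Agent.H89.DF Pool.Agent.H95.DR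

variable {K : Type} [Field K] [NumberField K]

theorem det_swap (u v : ℤ × ℤ) : det v u = -det u v := by
  unfold det
  ring

theorem lv_sub (α β : 𝓞 K) (u v : ℤ × ℤ) : lv K α β (u - v) = lv K α β u - lv K α β v := by
  unfold lv
  simp only [Prod.fst_sub, Prod.snd_sub]
  push_cast
  ring

theorem lv_comb (α β : 𝓞 K) (t s : ℤ) (u v : ℤ × ℤ) :
    lv K α β (t • u + s • v) = (t : 𝓞 K) * lv K α β u + (s : 𝓞 K) * lv K α β v := by
  unfold lv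
  simp only [Prod.fst_add, Prod.snd_add, Prod.smul_fst, Prod.smul_snd, smul_eq_mul]
  push_cast
  ring

/-- the lattice vector of a multiple -/
theorem ex_mul {σ σ' : K →+* ℝ} {I : Ideal (𝓞 K)} {α β : 𝓞 K} {Q : QF} (h : OBr σ σ' I α β Q)
    (y : 𝓞 K) (v : ℤ × ℤ) : ∃ w, lv K α β w = y * lv K α β v := by
  have h1 : lv K α β v ∈ I := (h.mem _).2 ⟨v, rfl⟩
  obtain ⟨w, hw⟩ := (h.mem _).1 (I.mul_mem_left y h1)
  exact ⟨w, hw.symm⟩

theorem val_unit {σ σ' : K →+* ℝ} {I : (Ideal (𝓞 K))⁰} {α β : 𝓞 K} {Q : QF}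
    {b : ℤ × ℤ → (Ideal (𝓞 K))⁰} (h : OBr σ σ' (I : Ideal (𝓞 K)) α β Q) (hb : VBr I α β Q b)
    {V w : ℤ × ℤ} (hV : V ≠ 0) {u : (𝓞 K)ˣ} (hw : lv K α β w = (u : 𝓞 K) * lv K α β V) :
    w ≠ 0 ∧ |val Q w| = |val Q V| := by
  have hV0 : lv K α β V ≠ 0 := fun h' => hV (h.inj _ h')
  have hw0 : w ≠ 0 := by
    rintro rfl
    have h2 : lv K α β (0 : ℤ × ℤ) = 0 := by
      unfold lv
      simp
    rw [h2] at hw
    exact mul_ne_zero (Units.ne_zero u) hV0 hw.symm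
  refine ⟨hw0, ?_⟩
  have := (hb.fib V w hV hw0).2 ⟨u, hw⟩
  rw [← hb.nrm w hw0, ← hb.nrm V hV, this]

theorem uv_unit {σ σ' : K →+* ℝ} {I : (Ideal (𝓞 K))⁰} {α β : 𝓞 K} {Q : QF}
    {b : ℤ × ℤ → (Ideal (𝓞 K))⁰} (h : OBr σ σ' (I : Ideal (𝓞 K)) α β Q) (hb : VBr I α β Q b)
    {f : ℕ} {V w : ℤ × ℤ} (hV : V ≠ 0) {u : (𝓞 K)ˣ} (hw : lv K α β w = (u : 𝓞 K) * lv K α β V)
    (hU : Uv f Q V) : Uv f Q w := by
  have h1 := (val_unit h hb hV hw).2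
  have h2 := Int.isCoprime_iff_gcd_eq_one.1 hU
  refine Int.isCoprime_iff_gcd_eq_one.2 ?_
  rw [Int.gcd_eq_natAbs] at h2 ⊢
  rw [← Int.natAbs_abs (val Q w), h1, Int.natAbs_abs]
  exact h2

/-- the vector of the line -/
theorem t_ne {f : ℕ} {Q : QF} {T : Finset (ℤ × ℤ)} {W : ℤ × ℤ → ℤ × ℤ} (hT : LT f Q T W)
    {V : ℤ × ℤ} (hV : V ∈ T) : V ≠ 0 := by
  rintro rfl
  have := hT.one _ hV
  unfold det at this
  simp at this

/-- equal lines: the units are proportional modulo `f` -/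
theorem lemA (hTRN : Pool.Agent.H95.FC.T_TRN) (hPRN : Pool.Agent.H95.CF.T_PRN)
    {σ σ' : K →+* ℝ} {I : (Ideal (𝓞 K))⁰} {α β : 𝓞 K} {Q : QF}
    {b : ℤ × ℤ → (Ideal (𝓞 K))⁰} (h : OBr σ σ' (I : Ideal (𝓞 K)) α β Q) (hb : VBr I α β Q b)
    {f : ℕ} {T : Finset (ℤ × ℤ)} {W : ℤ × ℤ → ℤ × ℤ} (hT : LT f Q T W)
    {V V' w1 w2 : ℤ × ℤ} (hV : V ∈ T) (hV' : V' ∈ T) {u1 u2 : (𝓞 K)ˣ}
    (h1 : lv K α β w1 = (u1 : 𝓞 K) * lv K α β V) (h2 : lv K α β w2 = (u2 : 𝓞 K) * lv K α β V)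
    (d1 : (f : ℤ) ∣ det V' w1) (d2 : (f : ℤ) ∣ det V' w2) :
    ∃ (t : ℤ) (y : 𝓞 K), (u2 : 𝓞 K) - t * u1 = f * y := by
  obtain ⟨hA, hB, -⟩ := hTRN
  have hV0 := t_ne hT hV
  have hUw1 : Uv f Q w1 := uv_unit h hb hV0 h1 (hT.un V hV)
  have d12 : (f : ℤ) ∣ det w1 w2 := by
    refine hA f Q w1 V' w2 (hT.un V' hV') ?_ d2
    rw [det_swap]
    exact (dvd_neg).2 d1
  obtain ⟨t, x, hx⟩ := hB f Q w1 w2 hUw1 d12
  have e1 : ((u2 : 𝓞 K) - t * u1) * lv K α β V = (f : 𝓞 K) * lv K α β x := by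
    have e2 := lv_comb α β t (f : ℤ) w1 x
    rw [← hx, h2, h1] at e2
    push_cast at e2
    linear_combination e2
  have hx1 : lv K α β x ∈ (I : Ideal (𝓞 K)) := (h.mem _).2 ⟨x, rfl⟩
  obtain ⟨J, hJ⟩ := Ideal.dvd_span_singleton.2 hx1
  have hI0 : (I : Ideal (𝓞 K)) ≠ 0 := nonZeroDivisors.coe_ne_zero I
  have e3 : Ideal.span {(u2 : 𝓞 K) - t * u1} * (b V : Ideal (𝓞 K)) =
      Ideal.span {(f : 𝓞 K)} * J := by
    refine mul_right_cancel₀ hI0 ?_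
    rw [mul_assoc, ← hb.spn V hV0, Ideal.span_singleton_mul_span_singleton, e1,
      ← Ideal.span_singleton_mul_span_singleton, hJ, mul_assoc, mul_comm J]
  have hbV : (b V : Ideal (𝓞 K)) ≠ ⊥ := nonZeroDivisors.coe_ne_zero (b V)
  have hcop : IsCoprime (Ideal.span {(f : 𝓞 K)}) (b V : Ideal (𝓞 K)) := by
    have h5 := (hPRN K f (b V : Ideal (𝓞 K)) hbV).2 ?_
    · rw [Ideal.isCoprime_iff_sup_eq, sup_comm]
      exact h5.2
    · have h6 := hb.nrm V hV0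
      have h7 := Int.isCoprime_iff_gcd_eq_one.1 (hT.un V hV)
      rw [Int.gcd_eq_natAbs, ← Int.natAbs_abs, ← h6] at h7
      unfold nm at h7
      simpa using h7
  have h8 : Ideal.span {(f : 𝓞 K)} ∣ Ideal.span {(u2 : 𝓞 K) - t * u1} := by
    refine hcop.dvd_of_dvd_mul_right ?_
    rw [e3]
    exact dvd_mul_right _ _
  have h9 : (u2 : 𝓞 K) - t * u1 ∈ Ideal.span {(f : 𝓞 K)} := Ideal.dvd_span_singleton.1 h8
  obtain ⟨y, hy⟩ := Ideal.mem_span_singleton'.1 h9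
  exact ⟨t, y, by rw [← hy, mul_comm]⟩

/-- units which are proportional modulo `f` give equal lines -/
theorem lemB (hTRN : Pool.Agent.H95.FC.T_TRN)
    {σ σ' : K →+* ℝ} {I : (Ideal (𝓞 K))⁰} {α β : 𝓞 K} {Q : QF}
    {b : ℤ × ℤ → (Ideal (𝓞 K))⁰} (h : OBr σ σ' (I : Ideal (𝓞 K)) α β Q) (hb : VBr I α β Q b)
    {f : ℕ} {T : Finset (ℤ × ℤ)} {W : ℤ × ℤ → ℤ × ℤ} (hT : LT f Q T W)
    {V V1 V2 w1 w2 : ℤ × ℤ} (hV : V ∈ T) (hV1 : V1 ∈ T) (hV2 : V2 ∈ T) {u1 u2 : (𝓞 K)ˣ}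
    (h1 : lv K α β w1 = (u1 : 𝓞 K) * lv K α β V) (h2 : lv K α β w2 = (u2 : 𝓞 K) * lv K α β V)
    (d1 : (f : ℤ) ∣ det V1 w1) (d2 : (f : ℤ) ∣ det V2 w2) {t : ℤ} {y : 𝓞 K}
    (ht : (u2 : 𝓞 K) - t * u1 = f * y) : V1 = V2 := by
  obtain ⟨hA, -, -⟩ := hTRN
  have hV0 := t_ne hT hV
  have hUw1 : Uv f Q w1 := uv_unit h hb hV0 h1 (hT.un V hV)
  have hUw2 : Uv f Q w2 := uv_unit h hb hV0 h2 (hT.un V hV)
  obtain ⟨x, hx⟩ := ex_mul h y V
  have e1 : w2 = t • w1 + (f : ℤ) • x := by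
    have e2 : lv K α β (w2 - (t • w1 + (f : ℤ) • x)) = 0 := by
      rw [lv_sub, lv_comb, h2, h1, hx]
      push_cast
      linear_combination ht * lv K α β V
    exact sub_eq_zero.1 (h.inj _ e2)
  have d12 : (f : ℤ) ∣ det w1 w2 := by
    refine ⟨det w1 x, ?_⟩
    rw [e1]
    unfold det
    simp only [Prod.fst_add, Prod.snd_add, Prod.smul_fst, Prod.smul_snd, smul_eq_mul]
    ring
  have d13 : (f : ℤ) ∣ det V1 w2 := hA f Q V1 w1 w2 hUw1 d1 d12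
  refine hT.uni V1 hV1 V2 hV2 (hA f Q V1 w2 V2 hUw2 d13 ?_)
  rw [det_swap]
  exact (dvd_neg).2 d2

open Classical in
/-- comparison of two lines -/
theorem card_le (hTRN : Pool.Agent.H95.FC.T_TRN) (hPRN : Pool.Agent.H95.CF.T_PRN)
    {D f : ℕ} {σ σ' : K →+* ℝ} (R : DD K D f σ σ') (c c' : ClassGroup (𝓞 K)) (V V' : ℤ × ℤ)
    (hV : V ∈ R.T c) (hV' : V' ∈ R.T c') :
    ((R.T c).filter (fun X => UP (R.α c) (R.β c) f V X)).card ≤
      ((R.T c').filter (fun X => UP (R.α c') (R.β c') f V' X)).card := by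
  have hch : ∀ X ∈ (R.T c).filter (fun X => UP (R.α c) (R.β c) f V X), ∃ u : (𝓞 K)ˣ,
      (∃ w : ℤ × ℤ, lv K (R.α c) (R.β c) w = (u : 𝓞 K) * lv K (R.α c) (R.β c) V ∧
        (f : ℤ) ∣ det X w) ∧ ∃ Y ∈ R.T c', ∃ w : ℤ × ℤ,
      lv K (R.α c') (R.β c') w = (u : 𝓞 K) * lv K (R.α c') (R.β c') V' ∧
        (f : ℤ) ∣ det Y w := by
    intro X hX
    obtain ⟨u, w, hw⟩ := (Finset.mem_filter.1 hX).2
    obtain ⟨w', hw'⟩ := ex_mul (R.ob c') (u : 𝓞 K) V'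
    have hU := uv_unit (R.ob c') (R.vb c') (t_ne (R.lt c') hV') hw' ((R.lt c').un V' hV')
    obtain ⟨Y, hY, hYd⟩ := (R.lt c').ex w' hU
    exact ⟨u, ⟨w, hw⟩, Y, hY, w', hw', hYd⟩
  choose! U hU1 Y hY hY2 using hch
  refine Finset.card_le_card_of_injOn Y ?_ ?_
  · intro X hX
    have hX' := Finset.mem_coe.1 hX
    refine Finset.mem_coe.2 (Finset.mem_filter.2 ⟨hY X hX', ?_⟩)
    obtain ⟨w, hw1, hw2⟩ := hY2 X hX'
    exact ⟨U X, w, hw1, hw2⟩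
  · intro X1 hX1 X2 hX2 h12
    have hX1' := Finset.mem_coe.1 hX1
    have hX2' := Finset.mem_coe.1 hX2
    obtain ⟨w1, a1, b1⟩ := hY2 X1 hX1'
    obtain ⟨w2, a2, b2⟩ := hY2 X2 hX2'
    rw [← h12] at b2
    obtain ⟨t, y, hty⟩ := lemA hTRN hPRN (R.ob c') (R.vb c') (R.lt c') hV' (hY X1 hX1') a1 a2 b1 b2
    obtain ⟨x1, p1, q1⟩ := hU1 X1 hX1'
    obtain ⟨x2, p2, q2⟩ := hU1 X2 hX2'
    exact lemB hTRN (R.ob c) (R.vb c) (R.lt c) hV (Finset.mem_filter.1 hX1').1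
      (Finset.mem_filter.1 hX2').1 p1 p2 q1 q2 hty

/-- (CNT) every line has the same number of unit multiples. -/
theorem pf_CNTr (hTRN : Pool.Agent.H95.FC.T_TRN) (hPRN : Pool.Agent.H95.CF.T_PRN) : T_CNTr := by
  classical
  intro K _ _ D f σ σ' hRQ hf R
  by_cases hne : ∃ c, ∃ V, V ∈ R.T c
  · obtain ⟨c0, V0, hV0⟩ := hne
    refine ⟨((R.T c0).filter (fun X => UP (R.α c0) (R.β c0) f V0 X)).card, ?_, ?_⟩
    · refine Finset.card_pos.2 ⟨V0, Finset.mem_filter.2 ⟨hV0, 1, V0, by simp, ?_⟩⟩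
      refine ⟨0, ?_⟩
      unfold det
      ring
    · intro c V hV
      have h1 := card_le hTRN hPRN R c c0 V V0 hV hV0
      have h2 := card_le hTRN hPRN R c0 c V0 V hV0 hV
      refine le_antisymm ?_ ?_
      · exact (Finset.card_le_card (by intro x hx; simpa using hx)).trans (h1.trans
          (Finset.card_le_card (by intro x hx; simpa using hx)))
      · exact (Finset.card_le_card (by intro x hx; simpa using hx)).trans (h2.trans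
          (Finset.card_le_card (by intro x hx; simpa using hx)))
  · refine ⟨1, one_pos, fun c V hV => (hne ⟨c, V, hV⟩).elim⟩

end Pool.Agent.H47.DF
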