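import Pool.Agent.H95.DR.Targets

/-!
# HOL: continuity and holomorphy of the Epstein zeta function on a geodesic
-/

set_option autoImplicit false

open MeasureTheory Set Filter NumberField
open scoped Real nonZeroDivisors Matrix MatrixGroups

namespace Pool.Agent.H47.DF

open Pool.Agent.H31.CN Pool.Agent.H89.FM Pool.Agent.H61.FM Pool.Agent.H89.FC Pool.Agent.H95.FC
open Pool.Agent.H89.DF Pool.Agent.H95.DR

/-- the integral of a jointly continuous function which is entire in the parameter -/
theorem entire_integral {G : ℂ → ℝ → ℂ} (hc : Continuous fun p : ℂ × ℝ => G p.1 p.2)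
    (hd : ∀ τ, Differentiable ℂ fun s => G s τ) (P : ℝ) :
    Differentiable ℂ fun s => ∫ τ in (0 : ℝ)..P, G s τ := by
  intro s0
  have hK : IsCompact (Metric.closedBall s0 2 ×ˢ uIcc (0 : ℝ) P) :=
    (isCompact_closedBall s0 2).prod isCompact_uIcc
  obtain ⟨M, hM⟩ := hK.exists_bound_of_continuousOn hc.continuousOn
  have hcs : ∀ s, Continuous fun τ => G s τ := fun s =>
    hc.comp (continuous_const.prodMk continuous_id)
  have hsw : Continuous (Function.uncurry fun (τ : ℝ) (s : ℂ) => G s τ) :=
    hc.comp (continuous_snd.prodMk continuous_fst)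
  have hmeas : StronglyMeasurable fun τ : ℝ => deriv (fun s => G s τ) s0 := by
    have h1 := stronglyMeasurable_deriv_with_param hsw
    exact h1.comp_measurable (measurable_id.prodMk measurable_const)
  refine (intervalIntegral.hasDerivAt_integral_of_dominated_loc_of_deriv_le (μ := volume)
    (F := G) (F' := fun s τ => deriv (fun s => G s τ) s) (bound := fun _ => M)
    (s := Metric.ball s0 1) (Metric.ball_mem_nhds s0 one_pos) ?_ ?_ ?_ ?_ ?_ ?_).2.differentiableAt
  · exact Eventually.of_forall fun s => (hcs s).aestronglyMeasurable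
  · exact (hcs s0).intervalIntegrable _ _
  · exact hmeas.aestronglyMeasurable
  · refine Eventually.of_forall fun τ hτ s hs => ?_
    have h1 := Complex.norm_deriv_le_of_forall_mem_sphere_norm_le (c := s) (R := 1) (C := M)
      (f := fun s => G s τ) one_pos (hd τ).diffContOnCl ?_
    · simpa using h1
    · intro z hz
      refine hM (z, τ) ⟨?_, uIoc_subset_uIcc hτ⟩
      have h2 : dist z s = 1 := hz
      have h3 : dist s s0 < 1 := hs
      have h4 := dist_triangle z s s0
      simp only [Metric.mem_closedBall]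
      linarith
  · exact intervalIntegrable_const
  · exact Eventually.of_forall fun τ _ s _ => (hd τ s).hasDerivAt

variable {K : Type} [Field K] [NumberField K]

theorem cont_ph (σ σ' : K →+* ℝ) (a : 𝓞 K) : Continuous fun τ => ph σ σ' τ a := by
  unfold ph
  fun_prop

theorem slice {g : ℂ × ℝ → ℂ} (hg : Continuous g) (s : ℂ) : Continuous fun τ : ℝ => g (s, τ) :=
  hg.comp (continuous_const.prodMk continuous_id)

theorem slice' {g : ℝ → ℂ} (hg : Continuous g) : Continuous fun p : ℂ × ℝ => g p.2 :=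
  hg.comp continuous_snd

theorem comp3 {g : ℂ → ℝ → ℝ → ℂ}
    (hg : ContinuousOn (fun p : ℂ × ℝ × ℝ => g p.1 p.2.1 p.2.2) {p | 0 < p.2.2}) {z : ℝ → ℂ}
    (hz : Continuous z) (hp : ∀ τ, 0 < (z τ).im) :
    Continuous fun p : ℂ × ℝ => g p.1 (z p.2).re (z p.2).im := by
  have h1 : Continuous fun p : ℂ × ℝ => (p.1, (z p.2).re, (z p.2).im) :=
    continuous_fst.prodMk ((Complex.continuous_re.comp (hz.comp continuous_snd)).prodMk
      (Complex.continuous_im.comp (hz.comp continuous_snd)))
  exact hg.comp_continuous h1 fun p => hp p.2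

/-- (HOL) continuity and holomorphy. -/
theorem pf_HOLr (hEJC : T_EJC) (hEZA : Pool.Agent.H89.FC.T_EZAm) (hPBG : T_PBG)
    (hPHX : T_PHX) : T_HOLr := by
  intro K _ _ σ σ' N a b Q hPB κ m n L hn hL
  have ha : a ≠ 0 := by
    rintro rfl
    have := hPB.ori
    simp at this
  have hph : ∀ τ, ph σ σ' τ a ≠ 0 := fun τ => (hPHX K σ σ' τ a ha).1
  have hwn : ∀ τ, ‖wp σ σ' τ a‖ = 1 := fun τ => (hPHX K σ σ' τ a ha).2.1
  have hw0 : ∀ τ, wp σ σ' τ a ≠ 0 := by
    intro τ h
    have := hwn τ
    rw [h, norm_zero] at this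
    exact zero_ne_one this
  have hcz : Continuous fun τ => zp σ σ' τ a b := by
    unfold zp
    exact (cont_ph σ σ' b).div (cont_ph σ σ' a) hph
  have hcw : Continuous fun τ => wp σ σ' τ a := by
    unfold wp
    refine (cont_ph σ σ' a).div (Complex.continuous_conj.comp (cont_ph σ σ' a)) fun τ => ?_
    exact (map_ne_zero (starRingEnd ℂ)).2 (hph τ)
  have him : ∀ τ, 0 < (zp σ σ' τ a b).im := fun τ => ((hPBG K σ σ' N a b Q hPB).2.2 τ).1
  have hcwz : ∀ k : ℤ, Continuous fun τ => wp σ σ' τ a ^ k := fun k =>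
    hcw.zpow₀ k fun τ => Or.inl (hw0 τ)
  have hE : ∀ m' : ℤ, Continuous fun p : ℂ × ℝ =>
      Em m' p.1 n L (zp σ σ' p.2 a b).re (zp σ σ' p.2 a b).im := by
    intro m'
    exact comp3 (g := fun s x y => Em m' s n L x y) (z := fun τ => zp σ σ' τ a b)
      (hEJC m' n L hn hL) hcz him
  have hF : Continuous fun p : ℂ × ℝ => Fr σ σ' κ m p.1 n L a b p.2 := by
    unfold Fr
    have h1 := slice' (hcwz m)
    have h2 := slice' (hcwz (-m))
    exact ((h1.mul (hE m)).add ((continuous_const.mul h2).mul (hE (-m)))).div_const 2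
  refine ⟨fun s => ?_, fun m' s => ?_, fun ν P => ?_⟩
  · have h3 := slice hF s
    exact h3
  · have h3 := slice (hE m') s
    exact h3
  refine entire_integral (G := fun s τ => Fr σ σ' κ m s n L a b τ *
    Complex.exp (-(((ν * τ : ℝ) : ℂ) * Complex.I))) ?_ ?_ P
  · refine hF.mul ?_
    have h1 : Continuous fun τ : ℝ => Complex.exp (-(((ν * τ : ℝ) : ℂ) * Complex.I)) := by
      fun_prop
    exact slice' h1
  · intro τ
    have h1 := (hEZA m n L (zp σ σ' τ a b).re (zp σ σ' τ a b).im hn hL (him τ)).1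
    have h2 := (hEZA (-m) n L (zp σ σ' τ a b).re (zp σ σ' τ a b).im hn hL (him τ)).1
    unfold Fr
    exact ((((h1.const_mul _).add (h2.const_mul _)).div_const 2).mul_const _)

end Pool.Agent.H47.DF
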